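import Mathlib

/-!
# MP_aedb6c_co: extremal graphs for diameter over average distance

We prove Q1: for every `n ≥ 3` the maximum of `D / l̄` over the connected graphs on `n` vertices is
attained by a balanced bug.
-/

namespace Pool.Agent.Results.MP_aedb6c_co.BalancedBugs

open Finset

/-- The bug `Bug_{p,k₁,k₂}`: the complete graph on the vertices `inl i`, `i < p`, without the edge
between `u = inl 0` and `v = inl 1`; a path `inr (inl 0), …, inr (inl (k₁-1))` on `k₁` new vertices
whose end vertex `inr (inl 0)` is joined to `u`; and a path on `k₂` new vertices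
`inr (inr 0), …, inr (inr (k₂-1))` whose end vertex `inr (inr 0)` is joined to `v`. -/
def bugRel (p k₁ k₂ : ℕ) : Fin p ⊕ (Fin k₁ ⊕ Fin k₂) → Fin p ⊕ (Fin k₁ ⊕ Fin k₂) → Prop
  | .inl i, .inl j => ¬ ((i : ℕ) = 0 ∧ (j : ℕ) = 1) ∧ ¬ ((i : ℕ) = 1 ∧ (j : ℕ) = 0)
  | .inr (.inl a), .inr (.inl b) => (b : ℕ) = a + 1
  | .inr (.inr a), .inr (.inr b) => (b : ℕ) = a + 1
  | .inl i, .inr (.inl a) => (i : ℕ) = 0 ∧ (a : ℕ) = 0
  | .inl i, .inr (.inr b) => (i : ℕ) = 1 ∧ (b : ℕ) = 0
  | .inr _, .inl _ => False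
  | .inr (.inl _), .inr (.inr _) => False
  | .inr (.inr _), .inr (.inl _) => False

/-- the bug as a simple graph (two vertices are adjacent iff they are distinct and related by
`bugRel` in one of the two orders) -/
def bug (p k₁ k₂ : ℕ) : SimpleGraph (Fin p ⊕ (Fin k₁ ⊕ Fin k₂)) :=
  SimpleGraph.fromRel (bugRel p k₁ k₂)

/-- the average distance: the mean of `d(x,y)` over the `n(n-1)` ordered pairs of distinct
vertices, which is the same as the mean over the unordered pairs (the pairs `x = y` contribute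
`0` to the sum) -/
noncomputable def avgDist {V : Type} [Fintype V] (G : SimpleGraph V) : ℚ :=
  (∑ x : V, ∑ y : V, (G.dist x y : ℚ)) / ((Fintype.card V : ℚ) * ((Fintype.card V : ℚ) - 1))

/-- the ratio `D / l̄` -/
noncomputable def ratio {V : Type} [Fintype V] (G : SimpleGraph V) : ℚ :=
  (G.diam : ℚ) / avgDist G

/-! ### Notation -/

/-- `max (1, |i - j|)` -/
def del (i j : ℕ) : ℕ := max 1 ((i - j) + (j - i))

/-- sum of all distances over ordered pairs -/
noncomputable def tot {V : Type} [Fintype V] (G : SimpleGraph V) : ℕ :=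
  ∑ x : V, ∑ y : V, G.dist x y

theorem ratio_eq {V : Type} [Fintype V] (G : SimpleGraph V) :
    ratio G = (G.diam : ℚ) / ((tot G : ℚ) / ((Fintype.card V : ℚ) * ((Fintype.card V : ℚ) - 1))) := by
  rw [ratio, avgDist, tot]
  push_cast
  rfl

open Classical in
/-- distance plus the indicator of equality -/
noncomputable def dd {V : Type} (G : SimpleGraph V) (x y : V) : ℕ :=
  G.dist x y + if x = y then 1 else 0

open Classical in
theorem sum_dd {V : Type} [Fintype V] (G : SimpleGraph V) :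
    ∑ x : V, ∑ y : V, dd G x y = tot G + Fintype.card V := by
  unfold dd tot
  simp only [sum_add_distrib]
  congr 1
  simp

theorem one_le_dd {V : Type} {G : SimpleGraph V} (hG : G.Connected) (x y : V) : 1 ≤ dd G x y := by
  classical
  unfold dd
  by_cases h : x = y
  · simp [h]
  · have := hG.pos_dist_of_ne h
    omega

/-- the common lower bound / exact value, `n = D + 1 + m` -/
def val (D m : ℕ) : ℕ :=
  (∑ i ∈ range (D + 1), ∑ j ∈ range (D + 1), del i j) +
    2 * m * (∑ j ∈ range (D + 1), del (D / 2) j) + m * m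

/-! ### Lower bound for an arbitrary graph -/

section lower

variable {V : Type} [Fintype V] {G : SimpleGraph V}

omit [Fintype V] in
theorem geodesic (hG : G.Connected) {a b : V} {p : G.Walk a b} (hp : p.length = G.dist a b) :
    ∀ i j, i ≤ j → j ≤ p.length → G.dist (p.getVert i) (p.getVert j) = j - i := by
  have hle : ∀ k i, i + k ≤ p.length → G.dist (p.getVert i) (p.getVert (i + k)) ≤ k := by
    intro k
    induction k with
    | zero => intro i _; simp
    | succ k ih =>
      intro i hi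
      have h1 := ih i (by omega)
      have h2 : G.Adj (p.getVert (i + k)) (p.getVert (i + k + 1)) :=
        p.adj_getVert_succ (by omega)
      have h3 : G.dist (p.getVert (i + k)) (p.getVert (i + k + 1)) = 1 :=
        SimpleGraph.dist_eq_one_iff_adj.2 h2
      have h4 := hG.dist_triangle (u := p.getVert i) (v := p.getVert (i + k))
        (w := p.getVert (i + k + 1))
      rw [show i + (k + 1) = i + k + 1 by ring]
      omega
  intro i j hij hj
  obtain ⟨k, rfl⟩ := Nat.exists_eq_add_of_le hij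
  have h1 := hle k i hj
  have h2 := hle i 0 (by omega)
  have h3 := hle (p.length - (i + k)) (i + k) (by omega)
  rw [zero_add, SimpleGraph.Walk.getVert_zero] at h2
  rw [show i + k + (p.length - (i + k)) = p.length by omega,
    SimpleGraph.Walk.getVert_length] at h3
  have h4 := hG.dist_triangle (u := a) (v := p.getVert i) (w := b)
  have h5 := hG.dist_triangle (u := p.getVert i) (v := p.getVert (i + k)) (w := b)
  omega

theorem lower_bound (hG : G.Connected) :
    G.diam + 1 ≤ Fintype.card V ∧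
      val G.diam (Fintype.card V - (G.diam + 1)) ≤ tot G + Fintype.card V := by
  classical
  haveI : Nonempty V := hG.nonempty
  obtain ⟨a, b, hab⟩ := G.exists_dist_eq_diam
  obtain ⟨p, hp⟩ := hG.exists_walk_length_eq_dist a b
  set D := G.diam with hD
  have hpl : p.length = D := by rw [hp, hab]
  have hgeo := geodesic hG hp
  rw [hpl] at hgeo
  set v : ℕ → V := fun i => p.getVert i with hv
  have hd : ∀ i ∈ range (D + 1), ∀ j ∈ range (D + 1), dd G (v i) (v j) = del i j := by
    intro i hi j hj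
    rw [mem_range] at hi hj
    unfold dd del
    rcases lt_trichotomy i j with h | h | h
    · have h1 := hgeo i j h.le (by omega)
      have hne : v i ≠ v j := by
        intro h2
        rw [show p.getVert i = p.getVert j from h2, SimpleGraph.dist_self] at h1
        omega
      rw [if_neg hne, show G.dist (v i) (v j) = j - i from h1]
      omega
    · subst h
      rw [if_pos rfl, SimpleGraph.dist_self]
      omega
    · have h1 := hgeo j i h.le (by omega)
      have hne : v i ≠ v j := by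
        intro h2
        rw [show p.getVert i = p.getVert j from h2, SimpleGraph.dist_self] at h1
        omega
      rw [if_neg hne, SimpleGraph.dist_comm, show G.dist (v j) (v i) = i - j from h1]
      omega
  have hinj : Set.InjOn v (range (D + 1)) := by
    intro i hi j hj hij
    by_contra hne
    have hi' : i ∈ range (D + 1) := by simpa using hi
    have hj' : j ∈ range (D + 1) := by simpa using hj
    rw [mem_range] at hi' hj'
    rcases lt_or_gt_of_ne hne with h | h
    · have h1 := hgeo i j h.le (by omega)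
      rw [show p.getVert i = p.getVert j from hij, SimpleGraph.dist_self] at h1
      omega
    · have h1 := hgeo j i h.le (by omega)
      rw [show p.getVert j = p.getVert i from hij.symm, SimpleGraph.dist_self] at h1
      omega
  set P := (range (D + 1)).image v with hP
  have hPc : P.card = D + 1 := by rw [hP, card_image_of_injOn hinj, card_range]
  have hn : D + 1 ≤ Fintype.card V := by
    rw [← hPc]; exact card_le_univ P
  have hOc : (Pᶜ).card = Fintype.card V - (D + 1) := by rw [card_compl, hPc]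
  refine ⟨hn, ?_⟩
  set m := Fintype.card V - (D + 1) with hm
  have hsplit : ∀ F : V → ℕ, ∑ x, F x = ∑ i ∈ range (D + 1), F (v i) + ∑ x ∈ Pᶜ, F x := by
    intro F
    rw [← sum_add_sum_compl P F, hP, sum_image hinj]
  -- the distances from a vertex to the path
  have hs : ∀ x : V, ∑ j ∈ range (D + 1), del (D / 2) j ≤ ∑ j ∈ range (D + 1), dd G x (v j) := by
    intro x
    have h1 : ∑ j ∈ range (D + 1), dd G x (v (D - j)) = ∑ j ∈ range (D + 1), dd G x (v j) := by
      have := sum_range_reflect (fun j => dd G x (v j)) (D + 1)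
      rw [← this]
      apply sum_congr rfl
      intro j hj
      rw [show D + 1 - 1 - j = D - j by omega]
    have h2 : ∑ j ∈ range (D + 1), del (D / 2) (D - j) = ∑ j ∈ range (D + 1), del (D / 2) j := by
      have := sum_range_reflect (fun j => del (D / 2) j) (D + 1)
      rw [← this]
      apply sum_congr rfl
      intro j hj
      rw [show D + 1 - 1 - j = D - j by omega]
    have h3 : ∑ j ∈ range (D + 1), (del (D / 2) j + del (D / 2) (D - j)) ≤
        ∑ j ∈ range (D + 1), (dd G x (v j) + dd G x (v (D - j))) := by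
      apply sum_le_sum
      intro j hj
      rw [mem_range] at hj
      have e1 := one_le_dd hG x (v j)
      have e2 := one_le_dd hG x (v (D - j))
      have e3 : D - 2 * j + (2 * j - D) ≤ dd G x (v j) + dd G x (v (D - j)) := by
        have t := hG.dist_triangle (u := v j) (v := x) (w := v (D - j))
        rw [SimpleGraph.dist_comm (u := v j) (v := x)] at t
        have e4 : G.dist (v j) (v (D - j)) = D - 2 * j + (2 * j - D) := by
          rcases le_total j (D - j) with h | h
          · rw [show G.dist (v j) (v (D - j)) = (D - j) - j from hgeo j (D - j) h (by omega)]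
            omega
          · rw [SimpleGraph.dist_comm,
              show G.dist (v (D - j)) (v j) = j - (D - j) from hgeo (D - j) j h (by omega)]
            omega
        have e5 : G.dist x (v j) ≤ dd G x (v j) := Nat.le_add_right _ _
        have e6 : G.dist x (v (D - j)) ≤ dd G x (v (D - j)) := Nat.le_add_right _ _
        omega
      unfold del
      omega
    rw [sum_add_distrib, sum_add_distrib, h1, h2] at h3
    omega
  have hmain : ∑ x, ∑ y, dd G x y =
      ∑ i ∈ range (D + 1), ∑ j ∈ range (D + 1), dd G (v i) (v j) +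
      ∑ i ∈ range (D + 1), ∑ y ∈ Pᶜ, dd G (v i) y +
      (∑ x ∈ Pᶜ, ∑ j ∈ range (D + 1), dd G x (v j) + ∑ x ∈ Pᶜ, ∑ y ∈ Pᶜ, dd G x y) := by
    rw [hsplit (fun x => ∑ y, dd G x y)]
    simp only [hsplit (fun y => dd G _ y)]
    rw [sum_add_distrib, sum_add_distrib]
  rw [← sum_dd, hmain]
  have a1 : ∑ i ∈ range (D + 1), ∑ j ∈ range (D + 1), dd G (v i) (v j) =
      ∑ i ∈ range (D + 1), ∑ j ∈ range (D + 1), del i j :=
    sum_congr rfl (fun i hi => sum_congr rfl (fun j hj => hd i hi j hj))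
  have a2 : m * ∑ j ∈ range (D + 1), del (D / 2) j ≤
      ∑ x ∈ Pᶜ, ∑ j ∈ range (D + 1), dd G x (v j) := by
    rw [← hOc, ← smul_eq_mul, ← sum_const]
    exact sum_le_sum (fun x _ => hs x)
  have a3 : ∑ i ∈ range (D + 1), ∑ y ∈ Pᶜ, dd G (v i) y =
      ∑ x ∈ Pᶜ, ∑ j ∈ range (D + 1), dd G x (v j) := by
    rw [sum_comm]
    apply sum_congr rfl
    intro x _
    apply sum_congr rfl
    intro j _
    unfold dd
    rw [SimpleGraph.dist_comm]
    congr 1
    by_cases h : v j = x
    · rw [if_pos h, if_pos h.symm]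
    · rw [if_neg h, if_neg (fun h' => h h'.symm)]
  have a4 : m * m ≤ ∑ x ∈ Pᶜ, ∑ y ∈ Pᶜ, dd G x y := by
    have : ∑ x ∈ Pᶜ, ∑ y ∈ Pᶜ, 1 ≤ ∑ x ∈ Pᶜ, ∑ y ∈ Pᶜ, dd G x y :=
      sum_le_sum (fun x _ => sum_le_sum (fun y _ => one_le_dd hG x y))
    simp only [sum_const, smul_eq_mul, mul_one, hOc] at this
    exact this
  rw [a1, a3]
  unfold val
  have a5 : 2 * m * (∑ j ∈ range (D + 1), del (D / 2) j) =
    m * (∑ j ∈ range (D + 1), del (D / 2) j) + m * (∑ j ∈ range (D + 1), del (D / 2) j) := by ring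
  omega

end lower

/-! ### The bugs -/

section bugs

variable {p k₁ k₂ : ℕ}

/-- positions of the vertices of a bug -/
def pos (p k₁ k₂ : ℕ) : Fin p ⊕ (Fin k₁ ⊕ Fin k₂) → ℕ
  | .inl i => if (i : ℕ) = 0 then k₁ else if (i : ℕ) = 1 then k₁ + 2 else k₁ + 1
  | .inr (.inl a) => k₁ - 1 - a
  | .inr (.inr b) => k₁ + 3 + b

theorem adj_iff (x y : Fin p ⊕ (Fin k₁ ⊕ Fin k₂)) :
    (bug p k₁ k₂).Adj x y ↔
      (pos p k₁ k₂ x = pos p k₁ k₂ y + 1 ∨ pos p k₁ k₂ y = pos p k₁ k₂ x + 1 ∨
        (pos p k₁ k₂ x = pos p k₁ k₂ y ∧ x ≠ y)) := by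
  unfold bug
  rw [SimpleGraph.fromRel_adj]
  rcases x with i | a | b <;> rcases y with j | a' | b'
  · simp only [bugRel, pos, ne_eq, Sum.inl.injEq, Fin.ext_iff]
    split_ifs <;> omega
  · simp only [bugRel, pos, ne_eq, reduceCtorEq, not_false_eq_true, true_and, and_true, or_false,
      false_or]
    have := a'.2
    split_ifs <;> omega
  · simp only [bugRel, pos, ne_eq, reduceCtorEq, not_false_eq_true, true_and, and_true, or_false,
      false_or]
    split_ifs <;> omega
  · simp only [bugRel, pos, ne_eq, reduceCtorEq, not_false_eq_true, true_and, and_true, or_false,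
      false_or]
    have := a.2
    split_ifs <;> omega
  · simp only [bugRel, pos, ne_eq, Sum.inr.injEq, Sum.inl.injEq, Fin.ext_iff]
    have := a.2
    have := a'.2
    omega
  · simp only [bugRel, pos, ne_eq, Sum.inr.injEq, reduceCtorEq, not_false_eq_true, true_and,
      and_true, or_self, false_iff]
    have := a.2
    omega
  · simp only [bugRel, pos, ne_eq, reduceCtorEq, not_false_eq_true, true_and, and_true, or_false,
      false_or]
    split_ifs <;> omega
  · simp only [bugRel, pos, ne_eq, Sum.inr.injEq, reduceCtorEq, not_false_eq_true, true_and,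
      and_true, or_self, false_iff]
    have := a'.2
    omega
  · simp only [bugRel, pos, ne_eq, Sum.inr.injEq, Fin.ext_iff]
    omega

/-- every position `≤ k₁ + k₂ + 2` is taken -/
theorem exists_pos (hp : 3 ≤ p) (i : ℕ) (hi : i ≤ k₁ + k₂ + 2) :
    ∃ x, pos p k₁ k₂ x = i := by
  by_cases h1 : i < k₁
  · refine ⟨.inr (.inl ⟨k₁ - 1 - i, by omega⟩), ?_⟩
    simp only [pos]
    omega
  by_cases h2 : i = k₁
  · exact ⟨.inl ⟨0, by omega⟩, by simp [pos, h2]⟩
  by_cases h3 : i = k₁ + 1
  · exact ⟨.inl ⟨2, by omega⟩, by simp [pos, h3]⟩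
  by_cases h4 : i = k₁ + 2
  · exact ⟨.inl ⟨1, by omega⟩, by simp [pos, h4]⟩
  · refine ⟨.inr (.inr ⟨i - (k₁ + 3), by omega⟩), ?_⟩
    simp only [pos]
    omega

theorem pos_le (x : Fin p ⊕ (Fin k₁ ⊕ Fin k₂)) : pos p k₁ k₂ x ≤ k₁ + k₂ + 2 := by
  rcases x with i | a | b
  · simp only [pos]
    split_ifs <;> omega
  · simp only [pos]
    omega
  · simp only [pos]
    have := b.2
    omega

theorem exists_walk_up (hp : 3 ≤ p) : ∀ (k : ℕ) (x y : Fin p ⊕ (Fin k₁ ⊕ Fin k₂)), 1 ≤ k →
    pos p k₁ k₂ y = pos p k₁ k₂ x + k → ∃ w : (bug p k₁ k₂).Walk x y, w.length = k := by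
  intro k
  induction k with
  | zero => intro x y h; omega
  | succ k ih =>
    intro x y _ h
    rcases Nat.eq_zero_or_pos k with h0 | h0
    · subst h0
      have : (bug p k₁ k₂).Adj x y := (adj_iff x y).2 (by omega)
      exact ⟨SimpleGraph.Walk.cons this SimpleGraph.Walk.nil, rfl⟩
    · have hy := pos_le (p := p) y
      obtain ⟨z, hz⟩ := exists_pos (p := p) (k₁ := k₁) (k₂ := k₂) hp (pos p k₁ k₂ x + 1) (by omega)
      have hxz : (bug p k₁ k₂).Adj x z := (adj_iff x z).2 (by omega)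
      obtain ⟨w, hw⟩ := ih z y h0 (by omega)
      exact ⟨SimpleGraph.Walk.cons hxz w, by simp [hw]⟩

theorem exists_walk (hp : 3 ≤ p) (x y : Fin p ⊕ (Fin k₁ ⊕ Fin k₂)) (hxy : x ≠ y) :
    ∃ w : (bug p k₁ k₂).Walk x y, w.length ≤ del (pos p k₁ k₂ x) (pos p k₁ k₂ y) := by
  rcases lt_trichotomy (pos p k₁ k₂ x) (pos p k₁ k₂ y) with h | h | h
  · obtain ⟨w, hw⟩ := exists_walk_up hp (pos p k₁ k₂ y - pos p k₁ k₂ x) x y (by omega) (by omega)
    refine ⟨w, ?_⟩
    rw [hw]; unfold del; omega
  · have : (bug p k₁ k₂).Adj x y := (adj_iff x y).2 (Or.inr (Or.inr ⟨h, hxy⟩))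
    refine ⟨SimpleGraph.Walk.cons this SimpleGraph.Walk.nil, ?_⟩
    simp [del]
  · obtain ⟨w, hw⟩ := exists_walk_up hp (pos p k₁ k₂ x - pos p k₁ k₂ y) y x (by omega) (by omega)
    refine ⟨w.reverse, ?_⟩
    rw [SimpleGraph.Walk.length_reverse, hw]; unfold del; omega

theorem bug_connected (hp : 3 ≤ p) : (bug p k₁ k₂).Connected := by
  haveI : Nonempty (Fin p ⊕ (Fin k₁ ⊕ Fin k₂)) := ⟨.inl ⟨0, by omega⟩⟩
  refine SimpleGraph.Connected.mk ?_
  intro x y
  by_cases h : x = y
  · subst h; exact SimpleGraph.Reachable.refl x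
  · obtain ⟨w, _⟩ := exists_walk hp x y h
    exact ⟨w⟩

theorem pos_walk {x y : Fin p ⊕ (Fin k₁ ⊕ Fin k₂)} (w : (bug p k₁ k₂).Walk x y) :
    pos p k₁ k₂ y ≤ pos p k₁ k₂ x + w.length := by
  induction w with
  | nil => simp
  | cons h w ih =>
    have := (adj_iff _ _).1 h
    rw [SimpleGraph.Walk.length_cons]
    omega

theorem le_bug_diam (hp : 3 ≤ p) : k₁ + k₂ + 2 ≤ (bug p k₁ k₂).diam := by
  obtain ⟨x, hx⟩ := exists_pos (p := p) (k₁ := k₁) (k₂ := k₂) hp 0 (by omega)
  obtain ⟨y, hy⟩ := exists_pos (p := p) (k₁ := k₁) (k₂ := k₂) hp (k₁ + k₂ + 2) le_rfl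
  have hc := bug_connected (k₁ := k₁) (k₂ := k₂) hp
  haveI := hc.nonempty
  obtain ⟨w, hw⟩ := hc.exists_walk_length_eq_dist x y
  have h1 := pos_walk w
  have h2 : (bug p k₁ k₂).dist x y ≤ (bug p k₁ k₂).diam :=
    SimpleGraph.dist_le_diam (SimpleGraph.connected_iff_ediam_ne_top.1 hc)
  omega

theorem dd_le (hp : 3 ≤ p) (x y : Fin p ⊕ (Fin k₁ ⊕ Fin k₂)) :
    dd (bug p k₁ k₂) x y ≤ del (pos p k₁ k₂ x) (pos p k₁ k₂ y) := by
  classical
  unfold dd
  by_cases h : x = y
  · subst h
    simp [del]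
  · rw [if_neg h, add_zero]
    obtain ⟨w, hw⟩ := exists_walk hp x y h
    exact (SimpleGraph.dist_le w).trans hw

theorem sum_pos (q : ℕ) (F : ℕ → ℕ) :
    ∑ x, F (pos (q + 3) k₁ k₂ x) =
      ∑ i ∈ range (k₁ + k₂ + 3), F i + q * F (k₁ + 1) := by
  have e1 : ∑ i : Fin (q + 3), F (pos (q + 3) k₁ k₂ (.inl i)) =
      F k₁ + F (k₁ + 2) + (q + 1) * F (k₁ + 1) := by
    rw [Fin.sum_univ_succ, Fin.sum_univ_succ]
    have : ∀ i : Fin (q + 1), F (pos (q + 3) k₁ k₂ (.inl i.succ.succ)) = F (k₁ + 1) := by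
      intro i
      simp [pos]
    simp only [this, sum_const, card_univ, Fintype.card_fin, smul_eq_mul]
    simp [pos]
    ring
  have e2 : ∑ a : Fin k₁, F (pos (q + 3) k₁ k₂ (.inr (.inl a))) = ∑ i ∈ range k₁, F i := by
    have : ∑ a : Fin k₁, F (pos (q + 3) k₁ k₂ (.inr (.inl a))) =
        ∑ a : Fin k₁, (fun i => F (k₁ - 1 - i)) (a : ℕ) := rfl
    rw [this, Fin.sum_univ_eq_sum_range (fun i => F (k₁ - 1 - i)) k₁, sum_range_reflect]
  have e3 : ∑ b : Fin k₂, F (pos (q + 3) k₁ k₂ (.inr (.inr b))) =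
      ∑ i ∈ range k₂, F (k₁ + 3 + i) := by
    have : ∑ b : Fin k₂, F (pos (q + 3) k₁ k₂ (.inr (.inr b))) =
        ∑ b : Fin k₂, (fun i => F (k₁ + 3 + i)) (b : ℕ) := rfl
    rw [this, Fin.sum_univ_eq_sum_range (fun i => F (k₁ + 3 + i)) k₂]
  rw [Fintype.sum_sum_type, Fintype.sum_sum_type, e1, e2, e3,
    show k₁ + k₂ + 3 = k₁ + 3 + k₂ by ring, sum_range_add, sum_range_succ, sum_range_succ,
    sum_range_succ]
  ring

theorem tot_bug_le (q : ℕ) (hc : k₁ + 1 = (k₁ + k₂ + 2) / 2) :
    tot (bug (q + 3) k₁ k₂) + Fintype.card (Fin (q + 3) ⊕ (Fin k₁ ⊕ Fin k₂)) ≤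
      val (k₁ + k₂ + 2) q := by
  rw [← sum_dd]
  have h1 : ∑ x, ∑ y, dd (bug (q + 3) k₁ k₂) x y ≤
      ∑ x, ∑ y, del (pos (q + 3) k₁ k₂ x) (pos (q + 3) k₁ k₂ y) :=
    sum_le_sum (fun x _ => sum_le_sum (fun y _ => dd_le (by omega) x y))
  refine h1.trans (le_of_eq ?_)
  have h2 : ∀ x, ∑ y, del (pos (q + 3) k₁ k₂ x) (pos (q + 3) k₁ k₂ y) =
      ∑ i ∈ range (k₁ + k₂ + 3), del (pos (q + 3) k₁ k₂ x) i +
        q * del (pos (q + 3) k₁ k₂ x) (k₁ + 1) := fun x =>
    sum_pos q (fun i => del (pos (q + 3) k₁ k₂ x) i)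
  simp only [h2]
  rw [sum_pos q (fun j => ∑ i ∈ range (k₁ + k₂ + 3), del j i + q * del j (k₁ + 1))]
  unfold val
  rw [← hc]
  have h3 : ∀ i j, del i j = del j i := by
    intro i j; unfold del; omega
  have h4 : ∑ i ∈ range (k₁ + k₂ + 3), del i (k₁ + 1) =
      ∑ i ∈ range (k₁ + k₂ + 3), del (k₁ + 1) i := sum_congr rfl (fun i _ => h3 _ _)
  have h5 : del (k₁ + 1) (k₁ + 1) = 1 := by unfold del; omega
  rw [sum_add_distrib, ← mul_sum, h4, h5, show k₁ + k₂ + 2 + 1 = k₁ + k₂ + 3 by ring]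
  ring

end bugs

/-! ### Comparison -/

theorem two_le_diam_or {V : Type} [Fintype V] {G : SimpleGraph V} (hG : G.Connected)
    (hn : 3 ≤ Fintype.card V) : G.diam ≠ 0 := by
  haveI : Nontrivial V := Fintype.one_lt_card_iff_nontrivial.1 (by omega)
  exact SimpleGraph.connected_iff_diam_ne_zero.1 hG

theorem tot_pos {V : Type} [Fintype V] {G : SimpleGraph V} (hG : G.Connected)
    (hn : 3 ≤ Fintype.card V) : Fintype.card V * (Fintype.card V - 1) ≤ tot G := by
  have h1 : ∑ x : V, ∑ y : V, 1 ≤ ∑ x : V, ∑ y : V, dd G x y :=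
    sum_le_sum (fun x _ => sum_le_sum (fun y _ => one_le_dd hG x y))
  rw [sum_dd] at h1
  simp only [sum_const, card_univ, smul_eq_mul, mul_one] at h1
  obtain ⟨k, hk⟩ : ∃ k, Fintype.card V = k + 1 := ⟨Fintype.card V - 1, by omega⟩
  rw [hk] at h1 ⊢
  simp only [Nat.add_sub_cancel]
  nlinarith

/-- comparison of a graph of diameter `D ≥ 2` with the bug of the same order and diameter -/
theorem compare {V : Type} [Fintype V] {G : SimpleGraph V} (hG : G.Connected) {q k₁ k₂ : ℕ}
    (hcard : q + 3 + k₁ + k₂ = Fintype.card V) (hD : k₁ + k₂ + 2 = max 2 G.diam)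
    (hc : k₁ + 1 = (k₁ + k₂ + 2) / 2) : ratio G ≤ ratio (bug (q + 3) k₁ k₂) := by
  have hn : 3 ≤ Fintype.card V := by omega
  have hcb : Fintype.card (Fin (q + 3) ⊕ (Fin k₁ ⊕ Fin k₂)) = Fintype.card V := by
    simp only [Fintype.card_sum, Fintype.card_fin]
    omega
  have hbc : (bug (q + 3) k₁ k₂).Connected := bug_connected (by omega)
  have hD0 := two_le_diam_or hG hn
  have hbd := le_bug_diam (p := q + 3) (k₁ := k₁) (k₂ := k₂) (by omega)
  have htot := tot_bug_le (k₁ := k₁) (k₂ := k₂) q hc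
  have hposG := tot_pos hG hn
  have hposB := tot_pos hbc (by rw [hcb]; exact hn)
  rw [hcb] at htot hposB
  obtain ⟨_, hlow⟩ := lower_bound hG
  rw [ratio_eq, ratio_eq, hcb]
  set n := Fintype.card V with hnn
  have hn1 : 0 < n * (n - 1) := Nat.mul_pos (by omega) (by omega)
  have htG : (0 : ℚ) < tot G := by
    have : 0 < tot G := by omega
    exact_mod_cast this
  have htB : (0 : ℚ) < tot (bug (q + 3) k₁ k₂) := by
    have : 0 < tot (bug (q + 3) k₁ k₂) := by omega
    exact_mod_cast this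
  have hN : (0 : ℚ) < (n : ℚ) * ((n : ℚ) - 1) := by
    have h3 : (3 : ℚ) ≤ n := by exact_mod_cast hn
    nlinarith
  -- key: `D(G) * tot(bug) ≤ D(bug) * tot(G)`
  have key : (G.diam : ℚ) * tot (bug (q + 3) k₁ k₂) ≤ ((bug (q + 3) k₁ k₂).diam : ℚ) * tot G := by
    have key' : G.diam * tot (bug (q + 3) k₁ k₂) ≤ (bug (q + 3) k₁ k₂).diam * tot G := by
      rcases Nat.lt_or_ge G.diam 2 with h | h
      · -- diameter one
        have h1 : G.diam = 1 := by omega
        have hk1 : k₁ = 0 := by omega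
        have hk2 : k₂ = 0 := by omega
        subst hk1 hk2
        have hv : val 2 q = (q + 3) * (q + 3) + 2 := by
          unfold val
          simp [sum_range_succ, del]
          ring
        rw [show 0 + 0 + 2 = 2 by rfl, hv] at htot
        have hq : n = q + 3 := by omega
        rw [h1, one_mul]
        have e1 : tot (bug (q + 3) 0 0) ≤ n * (n - 1) + 2 := by
          rw [hq] at htot ⊢
          have : (q + 3) * (q + 3 - 1) + (q + 3) = (q + 3) * (q + 3) := by
            rw [show q + 3 - 1 = q + 2 by omega]; ring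
          omega
        have e2 : 2 ≤ n * (n - 1) := by
          have : 3 * 2 ≤ n * (n - 1) := Nat.mul_le_mul hn (by omega)
          omega
        calc tot (bug (q + 3) 0 0) ≤ 2 * tot G := by omega
          _ ≤ (bug (q + 3) 0 0).diam * tot G := Nat.mul_le_mul_right _ (by omega)
      · have h1 : k₁ + k₂ + 2 = G.diam := by omega
        have h2 : n - (G.diam + 1) = q := by omega
        rw [h2, ← h1] at hlow
        have h3 : tot (bug (q + 3) k₁ k₂) ≤ tot G := by omega
        exact Nat.mul_le_mul (by omega) h3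
    exact_mod_cast key'
  rw [div_div_eq_mul_div, div_div_eq_mul_div, div_le_div_iff₀ htG htB]
  nlinarith

/-- **Q1 of MP_aedb6c_co.** For every `n ≥ 3` some balanced bug on `n` vertices maximises
`D / l̄` among all connected graphs on `n` vertices. -/
theorem result (n : ℕ) (hn : 3 ≤ n) :
    ∃ p k₁ k₂ : ℕ, 3 ≤ p ∧ p + k₁ + k₂ = n ∧ (k₁ ≤ k₂ + 1 ∧ k₂ ≤ k₁ + 1) ∧
      (bug p k₁ k₂).Connected ∧
      ∀ (V : Type) [Fintype V] (G : SimpleGraph V), Fintype.card V = n → G.Connected →
        ratio G ≤ ratio (bug p k₁ k₂) := by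
  obtain ⟨D, hD, hmax⟩ := Finset.exists_max_image (Icc 2 (n - 1))
    (fun D => ratio (bug (n - 1 - D + 3) ((D - 2) / 2) (D - 2 - (D - 2) / 2)))
    ⟨2, by rw [mem_Icc]; omega⟩
  rw [mem_Icc] at hD
  refine ⟨n - 1 - D + 3, (D - 2) / 2, D - 2 - (D - 2) / 2, by omega, by omega, by omega,
    bug_connected (by omega), ?_⟩
  intro V _ G hV hG
  obtain ⟨hdn, _⟩ := lower_bound hG
  rw [hV] at hdn
  set D' := max 2 G.diam with hD'
  have h1 : D' ∈ Icc 2 (n - 1) := by rw [mem_Icc]; omega
  have h2 : ratio G ≤ ratio (bug (n - 1 - D' + 3) ((D' - 2) / 2) (D' - 2 - (D' - 2) / 2)) := by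
    apply compare hG
    · rw [hV]; omega
    · omega
    · omega
  exact h2.trans (hmax D' h1)

end Pool.Agent.Results.MP_aedb6c_co.BalancedBugs
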